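import Mathlib
import Pool.Agent.Q8.KS.Core3

/-!
MP_0e7dfd_ag, Q1: the heights of the orbit of a point of full degree over a finite morphism to
projective space.
-/

set_option autoImplicit false

namespace Pool.Agent.Results.MP_0e7dfd_ag.FullPoints

open Pool.Agent.Q8.KS

/-- Let `V` be a projective variety over a number field `K` with absolute Galois group `G`, let
`f` be an endomorphism of `V` with first dynamical degree `d > 1`, let `A` be an ample class on `V`
with a height `h_A`, let `π : W → V` be a surjective morphism, and let `φ : W → ℙ^m` be a finite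
morphism of degree `N`, `m = dim W` and `H = φ^* O(1)`. Put
`m_k = (π^* (f^k)^* A ⋅ H^(m - 1)) / N`. There is `C` such that for all points `w` of `W` with
`[K(w) : K(φ(w))] = N` and all `k`, the height `h_A(f^k(π(w)))` differs from `m_k h(φ(w))` by at
most `C m_k √(max(1, h(φ(w))))`. -/
theorem result {G : Type} [Group G] (V W : Variety G) (f : Morphism V V) (π : Morphism W V)
    (hπ : Function.Surjective π.pt) (A : V.Pic) (h_A : V.Pt → ℝ) (d : ℝ) (hA : V.IsAmple A)
    (hh : V.IsHeight A h_A) (hd : 1 < d) (hdyn : IsDynamicalDegree f A d) (φ : Cover W) :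
    ∃ C : ℝ, ∀ w : W.Pt, φ.relDeg w = φ.N → ∀ k : ℕ,
      |h_A (f.pt^[k] (π.pt w))
          - W.deg (W.cls φ.H) (π.ns ((f.ns ^ k) (V.cls A))) / φ.N * φ.h (φ.φ w)|
        ≤ C * (W.deg (W.cls φ.H) (π.ns ((f.ns ^ k) (V.cls A))) / φ.N)
          * √(max 1 (φ.h (φ.φ w))) :=
  full_points f π hπ hA hh hd hdyn φ

end Pool.Agent.Results.MP_0e7dfd_ag.FullPoints
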