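import Mathlib
import Pool.Agent.Q8.KS.Core5

/-!
MP_0e7dfd_ag, Q1: the equality of the arithmetic degree and the dynamical degree for all but
finitely many points of bounded degree and large relative degree.
-/

set_option autoImplicit false

namespace Pool.Agent.Results.MP_0e7dfd_ag.LargeRelativeDegree

open Pool.Agent.Q8.KS

/-- Let `V` be a projective variety over a number field `K` with absolute Galois group `G`, let
`π : W → V` be a surjective morphism, `m = dim W`, and let `H₀` be an ample class on `W`. There is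
`κ > 0` such that the following holds for all endomorphisms `f` of `V` with first dynamical degree
`d > 1`, all ample classes `A` on `V` with a height `h_A`, and all finite morphisms `φ : W → ℙ^m`
of degree `N` such that `φ^* O(1)` is numerically a positive multiple of `H₀`.

(1) There is `C > 0` such that every point `w` of `W` with `[K(w) : K(φ(w))] > (1 - κ) N` and
`h(φ(w)) ≥ C` satisfies `a_f(π(w)) = d`; and `h_A(f^k(π(w)))` lies between `C⁻¹` times and `C`
times `((f^k)^* A ⋅ A^(dim V - 1)) h(φ(w))` for all `k`.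

(2) For every `e` there are only finitely many points `w` of `W` with
`[K(w) : K(φ(w))] > (1 - κ) N` and `[K(φ(w)) : K] ≤ e` for which `a_f(π(w)) = d` fails. -/
theorem result {G : Type} [Group G] (V W : Variety G) (π : Morphism W V)
    (hπ : Function.Surjective π.pt) (H₀ : W.Pic) (hH₀ : W.IsAmple H₀) :
    ∃ κ : ℝ, 0 < κ ∧ ∀ (f : Morphism V V) (A : V.Pic) (h_A : V.Pt → ℝ) (d : ℝ),
      V.IsAmple A → V.IsHeight A h_A → 1 < d → IsDynamicalDegree f A d →
      ∀ φ : Cover W, (∃ t : ℝ, 0 < t ∧ W.cls φ.H = t • W.cls H₀) →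
        ∃ C : ℝ, 0 < C ∧
          (∀ w : W.Pt, (1 - κ) * φ.N < φ.relDeg w → C ≤ φ.h (φ.φ w) →
            IsArithmeticDegree f h_A (π.pt w) d ∧ ∀ k : ℕ,
              V.deg (V.cls A) ((f.ns ^ k) (V.cls A)) * φ.h (φ.φ w)
                ≤ C * h_A (f.pt^[k] (π.pt w)) ∧
              h_A (f.pt^[k] (π.pt w))
                ≤ C * (V.deg (V.cls A) ((f.ns ^ k) (V.cls A)) * φ.h (φ.φ w))) ∧
          ∀ e : ℕ, {w : W.Pt | (1 - κ) * φ.N < φ.relDeg w ∧
            (MulAction.orbit G (φ.φ w)).ncard ≤ e ∧
              ¬ IsArithmeticDegree f h_A (π.pt w) d}.Finite :=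
  finiteness π hπ hH₀

end Pool.Agent.Results.MP_0e7dfd_ag.LargeRelativeDegree
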