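import Mathlib
import Pool.Agent.Q8.KS.Share4

/-!
MP_0e7dfd_ag, Q1: in the fibres of a finite morphism to a projective space of dimension `m` at
least one `m`-th of the points have maximal arithmetic degree.
-/

set_option autoImplicit false

namespace Pool.Agent.Results.MP_0e7dfd_ag.ShareOfTheFibre

open Pool.Agent.Q8.KS

/-- Let `V` be a projective variety over a number field `K` with absolute Galois group `G`, let
`π : W → V` be a surjective morphism (for example the identity), `m = dim W`, and let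
`φ : W → ℙ^m` be a finite morphism of degree `N`. There is a proper closed subset `Z` of `W` such
that for all endomorphisms `f` of `V` with first dynamical degree `d > 1` and all ample classes `A`
on `V` with a height `h_A` there is a constant `C` with the following properties.

(1) For every point `t` of `ℙ^m` outside `φ(Z)` with `h(t) ≥ C` at least `N / m` of the `N` points
`w` of the fibre `φ⁻¹(t)`, counted with multiplicity, satisfy `a_f(π(w)) = d` and
`h_A(f^k(π(w))) ≥ C⁻¹ d^k h(t)` for all `k`.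

(2) Every point `w` with `[K(w) : K(φ(w))] > (1 - 1/m) N`, `h(φ(w)) ≥ C` and `φ(w)` not in `φ(Z)`
satisfies `a_f(π(w)) = d`; and for every `e` there are only finitely many points `w` with
`[K(w) : K(φ(w))] > (1 - 1/m) N`, `[K(φ(w)) : K] ≤ e` and `φ(w)` not in `φ(Z)` for which
`a_f(π(w)) = d` fails. -/
theorem result {G : Type} [Group G] (V W : Variety G) (E : Effective W) (π : Morphism W V)
    (hπ : Function.Surjective π.pt) (φ : Cover W) :
    ∃ Z ∈ E.closed, ∀ (f : Morphism V V) (A : V.Pic) (h_A : V.Pt → ℝ) (d : ℝ),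
      V.IsAmple A → V.IsHeight A h_A → 1 < d → IsDynamicalDegree f A d → ∃ C : ℝ, 0 < C ∧
        (∀ t : φ.P, C ≤ φ.h t → (∀ w ∈ φ.fib t, w ∉ Z) →
          AtLeast φ t (φ.N / ((W.dimPred : ℝ) + 1)) (fun w =>
            IsArithmeticDegree f h_A (π.pt w) d ∧
              ∀ k : ℕ, d ^ k * φ.h t ≤ C * h_A (f.pt^[k] (π.pt w)))) ∧
        (∀ w : W.Pt, (1 - 1 / ((W.dimPred : ℝ) + 1)) * φ.N < φ.relDeg w → C ≤ φ.h (φ.φ w) →
          (∀ y ∈ φ.fib (φ.φ w), y ∉ Z) → IsArithmeticDegree f h_A (π.pt w) d) ∧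
        ∀ e : ℕ, {w : W.Pt | (1 - 1 / ((W.dimPred : ℝ) + 1)) * φ.N < φ.relDeg w ∧
          (MulAction.orbit G (φ.φ w)).ncard ≤ e ∧ (∀ y ∈ φ.fib (φ.φ w), y ∉ Z) ∧
            ¬ IsArithmeticDegree f h_A (π.pt w) d}.Finite :=
  share_main E π hπ φ

end Pool.Agent.Results.MP_0e7dfd_ag.ShareOfTheFibre
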